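import Pool.Agent.Results.MP_d171e3_nt.ArbitraryConstants
import Pool.Agent.N84.MD.G

/-!
# Logarithms of all the tuples of primes near the multiples of almost every real tuple

Let `ξ_0, ξ_1, …` be arbitrary complex numbers and `𝒟` a set of integers with at most `T ^ (κ + o(1))` elements up to `T`.
For all real `m`-tuples `y` outside of a set of Hausdorff dimension at most `(m - 1 + κ) / (1 - λ)`, for ALL large `T` in
`𝒟` and ALL the `m`-tuples `x` of positive integers (in particular all tuples of primes) with `|x_j - T y_j| ≤ T ^ λ` the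
numbers `log x_1, …, log x_m` satisfy no polynomial relation of degree at most `d` whose coefficients are polynomials in
`ξ_0, …, ξ_(g-1)` of degree at most `d` with integral coefficients of absolute value at most `T ^ A`; even the value of such
a polynomial is larger than `T ^ (-B)` times its largest coefficient. The set of the exceptional `y` is the same for all
`g`, `d` and `A`. If `λ < (1 - κ) / m` then almost all `y` have this property, with numbers `B` which depend only on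
`m, κ, λ, g, d, A`.

For example (`κ = 0`) for almost all real tuples `y` and all large `n` there are no such relations between the logarithms of
any primes `p_1, …, p_m` with `|p_j - 2 ^ n y_j| ≤ 2 ^ (λ n)`, for any `λ < 1 / m`; if `𝒟` is the set of all positive integers,
`κ = 1` and `λ < 0`, the theorem concerns the numerators of the good simultaneous approximations `x / T` of almost every `y`.

The starting theorem `ArbitraryConstants` of this problem bounds the number of the exceptional tuples up to `N` by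
`C N ^ (m - 1 + ε)`, which does not exclude that there are exceptional tuples near all the points `T y`; the theorems on the
primes of one short window (`PrimesInWindows`, `LowerBoundsAtEveryScale`) have an exceptional prime, depending on the degree
and the height of the relation, in windows of length at most `N ^ c` for an unspecified `c`, and primes of different windows
are not considered. Proof: the Hausdorff-Cantelli lemma (`Pool.Agent.N84.MD`).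
-/

set_option autoImplicit false

open Set Filter MeasureTheory
open scoped ENNReal

namespace Pool.Agent.L5helper62.NearAlmostEveryPoint

/-- The set of integers `𝒟` has exponent at most `κ`: for all `ε > 0` it has at most `C T ^ (κ + ε)` positive elements up
to `T`, for all `T ≥ 1`. -/
def Exponent (𝒟 : Set ℕ) (κ : ℝ) : Prop :=
  ∀ ε : ℝ, 0 < ε → ∃ C : ℝ, ∀ T : ℕ, 0 < T → ({D : ℕ | D ∈ 𝒟 ∧ 0 < D ∧ D ≤ T}.ncard : ℝ) ≤ C * (T : ℝ) ^ (κ + ε)

/-- For all polynomials `P` in `m` variables, of degree at most `d` in each variable, whose coefficients are polynomials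
in `ξ_0, …, ξ_(g-1)` of degree at most `d` in each variable with integral coefficients of absolute value at most `T ^ A`: the
absolute value of `P (ξ, log x)` is larger than `T ^ (-B)` times the absolute value of each non-zero coefficient of the
polynomial `P (ξ, X)`. -/
def Separated {m : ℕ} (g d A : ℕ) (B : ℝ) (ξ : ℕ → ℂ) (T : ℕ) (x : Fin m → ℕ) : Prop :=
  ∀ P : MvPolynomial (Fin m) (MvPolynomial (Fin g) ℤ), (∀ j, P.degreeOf j ≤ d) →
    (∀ e i, (P.coeff e).degreeOf i ≤ d) → (∀ e u, |(((P.coeff e).coeff u : ℤ) : ℝ)| ≤ (T : ℝ) ^ A) →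
      ∀ e, MvPolynomial.aeval (fun i : Fin g => ξ i) (P.coeff e) ≠ 0 →
        (T : ℝ) ^ (-B) * ‖MvPolynomial.aeval (fun i : Fin g => ξ i) (P.coeff e)‖ <
          ‖MvPolynomial.eval₂ (MvPolynomial.aeval fun i : Fin g => ξ i).toRingHom (fun j => (Real.log (x j) : ℂ)) P‖

/-- For all large `T` in `𝒟` all the tuples `x` of positive integers with `|x_j - T y_j| ≤ T ^ l` are separated. -/
def AllNear {m : ℕ} (𝒟 : Set ℕ) (l : ℝ) (g d A : ℕ) (B : ℝ) (ξ : ℕ → ℂ) (y : Fin m → ℝ) : Prop :=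
  ∃ T₀ : ℕ, ∀ T ∈ 𝒟, T₀ ≤ T → ∀ x : Fin m → ℕ, (∀ j, 1 ≤ x j) → (∀ j, |(x j : ℝ) - T * y j| ≤ (T : ℝ) ^ l) →
    Separated g d A B ξ T x

theorem AllNear.mono {m : ℕ} {𝒟 : Set ℕ} {l l' : ℝ} {g d A : ℕ} {B : ℝ} {ξ : ℕ → ℂ} {y : Fin m → ℝ}
    (h : AllNear 𝒟 l g d A B ξ y) (hl : l' ≤ l) : AllNear 𝒟 l' g d A B ξ y := by
  obtain ⟨T₀, h1⟩ := h
  refine ⟨max T₀ 1, fun T hT hT0 x hx hx' => h1 T hT ((le_max_left _ _).trans hT0) x hx fun j => (hx' j).trans ?_⟩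
  have h4 : (1 : ℝ) ≤ T := by exact_mod_cast (le_max_right _ _).trans hT0
  exact Real.rpow_le_rpow_of_exponent_le h4 hl

/-- the pairs of a denominator and an exceptional tuple -/
def Bad {m : ℕ} (𝒟 : Set ℕ) (g d A : ℕ) (B : ℝ) (ξ : ℕ → ℂ) (R : ℕ) (T : ℝ) : Set (ℕ × (Fin m → ℕ)) :=
  {v | v.1 ∈ 𝒟 ∧ R + 1 ≤ v.1 ∧ (v.1 : ℝ) ≤ T ∧ (∀ j, 1 ≤ v.2 j ∧ v.2 j ≤ (R + 1) * v.1) ∧
    ¬ Separated g d A B ξ v.1 v.2}

theorem bad_count {m : ℕ} (hm : 1 ≤ m) (g d A : ℕ) (ε : ℝ) (hε : 0 < ε) :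
    ∃ B : ℝ, ∀ (𝒟 : Set ℕ) (κ : ℝ), 0 ≤ κ → Exponent 𝒟 κ → ∀ (ξ : ℕ → ℂ) (R : ℕ),
      ∃ C : ℝ, 0 ≤ C ∧ ∀ T : ℝ, 1 ≤ T → (Bad (m := m) 𝒟 g d A B ξ R T).Finite ∧
        ((Bad (m := m) 𝒟 g d A B ξ R T).ncard : ℝ) ≤ C * T ^ ((m : ℝ) - 1 + κ + ε) := by
  classical
  obtain ⟨B₀, C, H⟩ := Pool.Agent.Results.MP_d171e3_nt.ArbitraryConstants.result m g d hm A (ε / 2) (by linarith)
  have hm' : (1 : ℝ) ≤ m := by exact_mod_cast hm
  refine ⟨2 * |B₀|, fun 𝒟 κ hκ h𝒟 ξ R => ?_⟩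
  obtain ⟨C₁, hC₁⟩ := h𝒟 (ε / 2) (by linarith)
  set θ : ℝ := (m : ℝ) - 1 + ε / 2 with hθ
  have hθ0 : 0 ≤ θ := by linarith
  refine ⟨|C₁| * (|C| * ((R : ℝ) + 1) ^ θ), by positivity, fun T hT1 => ?_⟩
  have hT0 : 0 < T := by linarith
  set P : Finset ℕ := (Finset.Icc (R + 1) ⌊T⌋₊).filter (· ∈ 𝒟) with hP
  let E : ℕ → Set (Fin m → ℕ) := fun D =>
    Pool.Agent.Results.MP_d171e3_nt.ArbitraryConstants.Exceptional m g d ((R + 1) * D) A B₀ fun i => ξ i
  have hE : ∀ D ∈ P, (E D).Finite ∧ ((E D).ncard : ℝ) ≤ |C| * (((R : ℝ) + 1) * T) ^ θ := by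
    intro D hD
    rw [hP, Finset.mem_filter, Finset.mem_Icc] at hD
    have hD0 : 0 < D := lt_of_lt_of_le (Nat.succ_pos R) hD.1.1
    have hDT : (D : ℝ) ≤ T := (Nat.cast_le.2 hD.1.2).trans (Nat.floor_le hT0.le)
    obtain ⟨h1, h2⟩ := H ((R + 1) * D) (Nat.mul_pos (Nat.succ_pos R) hD0) fun i => ξ i
    refine ⟨h1, h2.trans ?_⟩
    refine mul_le_mul (le_abs_self C) ?_ (by positivity) (abs_nonneg _)
    refine Real.rpow_le_rpow (by positivity) ?_ hθ0
    push_cast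
    exact mul_le_mul_of_nonneg_left hDT (by positivity)
  have hsub : Bad (m := m) 𝒟 g d A (2 * |B₀|) ξ R T ⊆ ⋃ D ∈ P, (fun x => (D, x)) '' E D := by
    rintro ⟨D, x⟩ ⟨hD, hD0, h1, h2, h3⟩
    simp only at hD hD0 h1 h2 h3
    unfold Separated at h3
    push Not at h3
    obtain ⟨Q, h4, h5, h6, e, h7, h8⟩ := h3
    have hD1 : 1 ≤ D := le_trans (Nat.succ_pos R) hD0
    have hDr : (1 : ℝ) ≤ D := by exact_mod_cast hD1
    have hDp : (0 : ℝ) < D := by linarith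
    refine Set.mem_iUnion₂.2 ⟨D, ?_, x, ⟨h2, Q, h4, h5, fun e u => (h6 e u).trans ?_, e, h7, h8.trans ?_⟩, rfl⟩
    · rw [hP, Finset.mem_filter, Finset.mem_Icc]
      exact ⟨⟨hD0, Nat.le_floor h1⟩, hD⟩
    · rw [Real.rpow_natCast]
      refine pow_le_pow_left₀ hDp.le ?_ _
      push_cast
      nlinarith [(Nat.cast_nonneg R : (0 : ℝ) ≤ R)]
    · refine mul_le_mul_of_nonneg_right ?_ (norm_nonneg _)
      have hN0 : (0 : ℝ) < (((R + 1) * D : ℕ) : ℝ) := by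
        push_cast
        positivity
      have hN1 : (1 : ℝ) ≤ (((R + 1) * D : ℕ) : ℝ) := by
        push_cast
        nlinarith [(Nat.cast_nonneg R : (0 : ℝ) ≤ R)]
      have hN2 : (((R + 1) * D : ℕ) : ℝ) ≤ (D : ℝ) ^ (2 : ℝ) := by
        rw [Real.rpow_two]
        push_cast
        have : (R : ℝ) + 1 ≤ D := by exact_mod_cast hD0
        nlinarith
      calc (D : ℝ) ^ (-(2 * |B₀|)) = ((D : ℝ) ^ (2 : ℝ)) ^ (-|B₀|) := by
            rw [← Real.rpow_mul hDp.le]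
            congr 1
            ring
        _ ≤ (((R + 1) * D : ℕ) : ℝ) ^ (-|B₀|) :=
            Real.rpow_le_rpow_of_nonpos hN0 hN2 (by linarith [abs_nonneg B₀])
        _ ≤ (((R + 1) * D : ℕ) : ℝ) ^ (-B₀) :=
            Real.rpow_le_rpow_of_exponent_le hN1 (by linarith [le_abs_self B₀])
  have hfin : (⋃ D ∈ P, (fun x => (D, x)) '' E D).Finite :=
    P.finite_toSet.biUnion fun D hD => (hE D hD).1.image _
  refine ⟨hfin.subset hsub, ?_⟩
  have h1 : ((Bad (m := m) 𝒟 g d A (2 * |B₀|) ξ R T).ncard : ℝ) ≤ ∑ D ∈ P, ((E D).ncard : ℝ) := by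
    have h2 : (Bad (m := m) 𝒟 g d A (2 * |B₀|) ξ R T).ncard ≤ ∑ D ∈ P, (E D).ncard :=
      ((Set.ncard_le_ncard hsub hfin).trans (Finset.set_ncard_biUnion_le P _)).trans
        (Finset.sum_le_sum fun D hD => Set.ncard_image_le (hE D hD).1)
    exact_mod_cast h2
  have h2 : ∑ D ∈ P, ((E D).ncard : ℝ) ≤ P.card * (|C| * (((R : ℝ) + 1) * T) ^ θ) := by
    rw [← nsmul_eq_mul]
    exact Finset.sum_le_card_nsmul _ _ _ fun D hD => (hE D hD).2
  have hfl : 0 < ⌊T⌋₊ := Nat.floor_pos.2 hT1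
  have h3 : (P.card : ℝ) ≤ |C₁| * T ^ (κ + ε / 2) := by
    have h4 : P.card ≤ {D : ℕ | D ∈ 𝒟 ∧ 0 < D ∧ D ≤ ⌊T⌋₊}.ncard := by
      rw [← Set.ncard_coe_finset]
      refine Set.ncard_le_ncard ?_ ((Set.finite_Iic ⌊T⌋₊).subset fun D hD => hD.2.2)
      intro D hD
      rw [hP, Finset.coe_filter, Set.mem_ofPred_eq, Finset.mem_Icc] at hD
      exact ⟨hD.2, lt_of_lt_of_le (Nat.succ_pos R) hD.1.1, hD.1.2⟩
    calc (P.card : ℝ) ≤ ({D : ℕ | D ∈ 𝒟 ∧ 0 < D ∧ D ≤ ⌊T⌋₊}.ncard : ℝ) := by exact_mod_cast h4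
      _ ≤ C₁ * (⌊T⌋₊ : ℝ) ^ (κ + ε / 2) := hC₁ _ hfl
      _ ≤ |C₁| * T ^ (κ + ε / 2) := by
        refine mul_le_mul (le_abs_self _) ?_ (by positivity) (abs_nonneg _)
        exact Real.rpow_le_rpow (Nat.cast_nonneg _) (Nat.floor_le hT0.le) (by positivity)
  refine h1.trans (h2.trans ?_)
  have h4 : T ^ ((m : ℝ) - 1 + κ + ε) = T ^ (κ + ε / 2) * T ^ θ := by
    rw [← Real.rpow_add hT0, hθ]
    congr 1
    ring
  calc (P.card : ℝ) * (|C| * (((R : ℝ) + 1) * T) ^ θ)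
      ≤ |C₁| * T ^ (κ + ε / 2) * (|C| * (((R : ℝ) + 1) * T) ^ θ) := mul_le_mul_of_nonneg_right h3 (by positivity)
    _ = |C₁| * (|C| * ((R : ℝ) + 1) ^ θ) * T ^ ((m : ℝ) - 1 + κ + ε) := by
        rw [h4, Real.mul_rpow (by positivity) hT0.le]
        ring

/-- one choice of the parameters -/
theorem piece {m : ℕ} (hm : 1 ≤ m) (g d A : ℕ) (ε : ℝ) (hε : 0 < ε) :
    ∃ B : ℝ, ∀ (𝒟 : Set ℕ) (κ : ℝ), 0 ≤ κ → Exponent 𝒟 κ → ∀ (ξ : ℕ → ℂ) (l : ℝ), l < 1 →
      dimH {y : Fin m → ℝ | ¬ AllNear 𝒟 l g d A B ξ y} ≤ ENNReal.ofReal (((m : ℝ) - 1 + κ + ε) / (1 - l)) := by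
  have hm' : (1 : ℝ) ≤ m := by exact_mod_cast hm
  obtain ⟨B, HB⟩ := bad_count hm g d A ε hε
  refine ⟨B, fun 𝒟 κ hκ h𝒟 ξ l hl => ?_⟩
  have hsub : {y : Fin m → ℝ | ¬ AllNear 𝒟 l g d A B ξ y} ⊆ ⋃ R : ℕ,
      {y : Fin m → ℝ | ¬ ∀ᶠ T : ℝ in atTop, ∀ v ∈ Bad (m := m) 𝒟 g d A B ξ R T,
        ¬ ∀ i, |y i - (fun (v : ℕ × (Fin m → ℕ)) (i : Fin m) => (v.2 i : ℝ) / v.1) v i| ≤ T ^ (-(1 - l))} := by
    intro y hy
    obtain ⟨R, hR⟩ := exists_nat_ge (∑ i, |y i|)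
    rw [Set.mem_iUnion]
    refine ⟨R, fun hev => hy ?_⟩
    obtain ⟨T₁, hT₁⟩ := eventually_atTop.1 hev
    obtain ⟨k, hk⟩ := exists_nat_ge T₁
    refine ⟨max k (R + 1), fun T hT hT0 x hx hx' => ?_⟩
    have hTR : R + 1 ≤ T := (le_max_right _ _).trans hT0
    have hT1 : 1 ≤ T := le_trans (Nat.succ_pos R) hTR
    have hTr1 : (1 : ℝ) ≤ T := by exact_mod_cast hT1
    have hTr : (0 : ℝ) < T := by linarith
    have hkT : (k : ℝ) ≤ T := by exact_mod_cast (le_max_left _ _).trans hT0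
    by_contra hno
    refine hT₁ T (hk.trans hkT) (T, x) ⟨hT, hTR, le_rfl, fun j => ⟨hx j, ?_⟩, hno⟩ fun j => ?_
    · have h1 := hx' j
      have h2 : |y j| ≤ R := (Finset.single_le_sum (f := fun i => |y i|) (fun i _ => abs_nonneg _)
        (Finset.mem_univ j)).trans hR
      have h3 : (T : ℝ) ^ l ≤ T := by
        calc (T : ℝ) ^ l ≤ (T : ℝ) ^ (1 : ℝ) := Real.rpow_le_rpow_of_exponent_le hTr1 hl.le
          _ = T := Real.rpow_one _
      have h4 : (x j : ℝ) ≤ (R + 1) * T := by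
        have h5 := (abs_le.1 h1).2
        have h6 : (T : ℝ) * y j ≤ T * R := mul_le_mul_of_nonneg_left ((le_abs_self _).trans h2) hTr.le
        linarith
      exact_mod_cast h4
    · have e : y j - (x j : ℝ) / T = -(((x j : ℝ) - T * y j) / T) := by
        field_simp
        ring
      simp only
      rw [e, abs_neg, abs_div, abs_of_pos hTr, div_le_iff₀ hTr]
      have e2 : (T : ℝ) ^ (-(1 - l)) * T = (T : ℝ) ^ l := by
        rw [← Real.rpow_add_one hTr.ne']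
        congr 1
        ring
      rw [e2]
      exact hx' j
  refine le_trans (dimH_mono hsub) ?_
  rw [dimH_iUnion]
  refine iSup_le fun R => ?_
  obtain ⟨C, hC0, hC⟩ := HB 𝒟 κ hκ h𝒟 ξ R
  exact Pool.Agent.N84.MD.scales (X := Fin m) (S := ℕ × (Fin m → ℕ)) _
    (Bad (m := m) 𝒟 g d A B ξ R) (Bad (m := m) 𝒟 g d A B ξ R) (s := (m : ℝ) - 1 + κ + ε) (τ := 1 - l)
    (by linarith) (by linarith)
    ⟨1, fun T T' _ h1 _ v hv => ⟨hv.1, hv.2.1, hv.2.2.1.trans h1, hv.2.2.2⟩⟩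
    ⟨C, hC⟩

/-- **Logarithms of all the tuples of integers near `T y`.** Let `κ ≥ 0`. (1) For `l < 1`, all sets `𝒟` of exponent at most
`κ` and all sequences `ξ` of complex numbers: for all real `m`-tuples `y` but a set of Hausdorff dimension at most
`(m - 1 + κ) / (1 - l)` and for all `g`, `d`, `A` there is `B` with `AllNear`. (2) If `m - 1 + κ < m (1 - l)` then there are
numbers `B g d A` such that for all these `𝒟` and `ξ` almost all `y` have the property `AllNear` with them, for all `g`,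
`d`, `A`. -/
theorem result (m : ℕ) (hm : 1 ≤ m) (κ : ℝ) (hκ : 0 ≤ κ) (l : ℝ) :
    (l < 1 → ∀ 𝒟 : Set ℕ, Exponent 𝒟 κ → ∀ ξ : ℕ → ℂ,
      dimH {y : Fin m → ℝ | ¬ ∀ g d A : ℕ, ∃ B : ℝ, AllNear 𝒟 l g d A B ξ y} ≤
        ENNReal.ofReal (((m : ℝ) - 1 + κ) / (1 - l))) ∧
    ((m : ℝ) - 1 + κ < m * (1 - l) → ∃ B : ℕ → ℕ → ℕ → ℝ, ∀ 𝒟 : Set ℕ, Exponent 𝒟 κ → ∀ ξ : ℕ → ℂ,
      ∀ᵐ y : Fin m → ℝ, ∀ g d A : ℕ, AllNear 𝒟 l g d A (B g d A) ξ y) := by
  have hm' : (1 : ℝ) ≤ m := by exact_mod_cast hm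
  refine ⟨fun hl 𝒟 h𝒟 ξ => ?_, fun hl => ?_⟩
  · have hl' : 0 < 1 - l := by linarith
    have hsub : {y : Fin m → ℝ | ¬ ∀ g d A : ℕ, ∃ B : ℝ, AllNear 𝒟 l g d A B ξ y} ⊆ ⋃ v : ℕ × ℕ × ℕ,
        {y : Fin m → ℝ | ∀ B : ℝ, ¬ AllNear 𝒟 l v.1 v.2.1 v.2.2 B ξ y} := by
      intro y hy
      rw [Set.mem_ofPred_eq] at hy
      push Not at hy
      obtain ⟨g, d, A, h⟩ := hy
      rw [Set.mem_iUnion]
      exact ⟨(g, d, A), h⟩
    refine le_trans (dimH_mono hsub) ?_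
    rw [dimH_iUnion]
    refine iSup_le ?_
    rintro ⟨g, d, A⟩
    refine Pool.Agent.N84.MD.dim_le_of_forall (div_nonneg (by linarith) hl'.le) fun D hD => ?_
    rw [div_lt_iff₀ hl'] at hD
    obtain ⟨B, hB⟩ := piece hm g d A (D * (1 - l) - ((m : ℝ) - 1 + κ)) (by linarith)
    have h1 := hB 𝒟 κ hκ h𝒟 ξ l hl
    have h2 : ((m : ℝ) - 1 + κ + (D * (1 - l) - ((m : ℝ) - 1 + κ))) / (1 - l) = D := by
      field_simp
      ring
    rw [h2] at h1
    exact le_trans (dimH_mono fun y hy => hy B) h1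
  · have hl1 : l < 1 := by
      by_contra hcon
      push Not at hcon
      nlinarith
    have hl' : 0 < 1 - l := by linarith
    obtain ⟨ε, hε⟩ : ∃ ε : ℝ, ε = (m * (1 - l) - ((m : ℝ) - 1 + κ)) / 2 := ⟨_, rfl⟩
    have hε0 : 0 < ε := by linarith
    choose B hB using fun g d A : ℕ => piece hm g d A ε hε0
    refine ⟨B, fun 𝒟 h𝒟 ξ => ?_⟩
    rw [ae_all_iff]
    intro g
    rw [ae_all_iff]
    intro d
    rw [ae_all_iff]
    intro A
    rw [ae_iff]
    refine Pool.Agent.N84.MD.null_of_dim (hB g d A 𝒟 κ hκ h𝒟 ξ l hl1) (div_nonneg (by linarith) hl'.le) ?_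
    rw [div_lt_iff₀ hl']
    linarith

end Pool.Agent.L5helper62.NearAlmostEveryPoint
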