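import Pool.Agent.X284.GP.Main

/-!
MP_8958e8_nt (Montgomery's pair correlation conjecture, gap form).

Small gaps between consecutive ordinates. The ordinates of the nontrivial zeros of zeta in the upper
half plane are listed with multiplicity as `ordinate 1 ≤ ordinate 2 ≤ …`. There is `κ > 0` such that
for every `p < 0.672… + κ` there is `a > 0` such that at least `p N` of the first `N` gaps are at
least `a` times the mean spacing, for all large `N`. The theorem is unconditional; under the
conjecture of the problem it holds for every `p < 1`.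
-/

set_option autoImplicit false

namespace Pool.Agent.L5helper62.SmallGapsAreRare

open Filter

noncomputable section

/-- The number of nontrivial zeros of zeta with ordinate in `(0, t]`, with multiplicity. -/
def count (t : ℝ) : ℕ :=
  ∑ᶠ s ∈ {s : ℂ | riemannZeta s = 0 ∧ 0 < s.re ∧ s.re < 1 ∧ 0 < s.im ∧ s.im ≤ t},
    analyticOrderNatAt riemannZeta s

/-- For `n ≥ 1` the `n`-th ordinate of a nontrivial zero of zeta in the upper half plane, the
ordinates being listed in nondecreasing order and repeated according to multiplicity. -/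
def ordinate (n : ℕ) : ℝ := sInf {t : ℝ | n ≤ count t}

/-- The constant `3/2 - cot(1/√2)/√2 = 0.6725...`. -/
def proportion : ℝ := 3 / 2 - Real.cot (1 / Real.sqrt 2) / Real.sqrt 2

/-- There is `κ > 0` such that for every `p < proportion + κ` there is `a > 0` such that for all
large `N` at least `p N` of the `n` in `[1, N]` satisfy
`ordinate (n + 1) - ordinate n ≥ a · 2π / log (n + 1)`. -/
theorem result : ∃ κ : ℝ, 0 < κ ∧ ∀ p : ℝ, p < proportion + κ →
    ∃ a : ℝ, 0 < a ∧ ∀ᶠ N : ℕ in atTop, p * N ≤
      (({n : ℕ | 1 ≤ n ∧ n ≤ N ∧ a * (2 * Real.pi / Real.log ((n : ℝ) + 1)) ≤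
        ordinate (n + 1) - ordinate n}).ncard : ℝ) := by
  classical
  obtain ⟨κ, hκ, h⟩ := Pool.Agent.X284.GP.main
  have hc : proportion = 2 - H295SI.cc 1 := by
    unfold proportion H295SI.cc
    ring
  have hc0 : 0 < proportion + κ := by
    rw [hc]
    have := H370.Expl.cMTinv_num
    have e : H295SI.cc 1 = H370.cMTinv := by
      unfold H295SI.cc H370.cMTinv
      ring
    rw [e]
    linarith
  refine ⟨κ, hκ, fun p hp => ?_⟩
  obtain ⟨a, ha, hN⟩ := h (max p 0) (le_max_right _ _) (by rw [← hc]; exact max_lt hp hc0)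
  have hpi := Real.pi_pos
  refine ⟨a / (2 * Real.pi), by positivity, ?_⟩
  filter_upwards [hN] with N hN
  have h1 : p * N ≤ max p 0 * N := mul_le_mul_of_nonneg_right (le_max_left _ _) (Nat.cast_nonneg _)
  refine (h1.trans hN).trans (le_of_eq ?_)
  unfold Pool.Agent.X284.GP.cnt
  rw [← Set.ncard_coe_finset]
  congr 2
  ext n
  simp only [Finset.coe_filter, Finset.mem_Icc, Set.mem_ofPred_eq]
  have e1 : a / (2 * Real.pi) * (2 * Real.pi / Real.log ((n : ℝ) + 1)) =
      a / Real.log ((n : ℝ) + 1) := by
    field_simp
  rw [e1, and_assoc]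
  rfl

end

end Pool.Agent.L5helper62.SmallGapsAreRare
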